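import Mathlib

/-!
Counting in chordal structures given by an elimination order.
-/

set_option autoImplicit false

namespace Pool.Agent.TreeAlpha

open Finset

variable {V : Type*}

/-- An elimination structure: `touch` is the adjacency of a chordal graph (with loops on the
vertices in use), `ρ` an elimination order, and `B v` a clique containing `v` and its later
neighbours. -/
structure Elim (touch : V → V → Prop) (ρ : V → ℕ) (B : V → Set V) : Prop where
  inj : Function.Injective ρ
  symm : ∀ v w, touch v w → touch w v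
  later : ∀ v w, touch v w → ρ v ≤ ρ w → w ∈ B v
  clique : ∀ u a b, a ∈ B u → b ∈ B u → touch a b

variable {touch : V → V → Prop} {ρ : V → ℕ} {B : V → Set V}

/-- Greedy thinning. -/
theorem Elim.thin (h : Elim touch ρ B) (t : ℕ) (n : ℕ) : ∀ (A : Finset V), A.card ≤ n →
    (∀ v ∈ A, touch v v) → (∀ v ∈ A, ∀ A₁ ⊆ A, (∀ w ∈ A₁, w ∈ B v) → A₁.card ≤ t) →
    ∃ A' ⊆ A, (∀ v ∈ A', ∀ w ∈ A', v ≠ w → ¬ touch v w) ∧ A.card ≤ t * A'.card := by
  classical
  induction n with
  | zero =>
    intro A hA _ _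
    have : A = ∅ := by simpa using hA
    subst this
    exact ⟨∅, by simp, by simp, by simp⟩
  | succ n ih =>
    intro A hA hself hB
    rcases A.eq_empty_or_nonempty with rfl | hne
    · exact ⟨∅, by simp, by simp, by simp⟩
    obtain ⟨v, hv, hmin⟩ := A.exists_min_image ρ hne
    set A₁ := A.filter (fun w => ¬ touch v w) with hA₁
    have hsub : A₁ ⊆ A := filter_subset _ _
    have hvA₁ : v ∉ A₁ := by
      intro hmem
      rw [hA₁, mem_filter] at hmem
      exact hmem.2 (hself v hv)
    have hlt : A₁.card < A.card := card_lt_card ⟨hsub, fun hc => hvA₁ (hc hv)⟩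
    obtain ⟨A', hA'sub, hA'ind, hA'card⟩ := ih A₁ (by omega) (fun w hw => hself w (hsub hw))
      (fun w hw A₂ hA₂ hAB => hB w (hsub hw) A₂ (hA₂.trans hsub) hAB)
    have hvA' : v ∉ A' := fun hc => hvA₁ (hA'sub hc)
    refine ⟨insert v A', ?_, ?_, ?_⟩
    · intro x hx
      rw [mem_insert] at hx
      rcases hx with rfl | hx
      · exact hv
      · exact hsub (hA'sub hx)
    · have key : ∀ w ∈ A', ¬ touch v w := by
        intro w hw
        have := hA'sub hw
        rw [hA₁, mem_filter] at this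
        exact this.2
      intro x hx y hy hxy
      rw [mem_insert] at hx hy
      rcases hx with rfl | hx
      · rcases hy with rfl | hy
        · exact absurd rfl hxy
        · exact key y hy
      · rcases hy with rfl | hy
        · intro hc
          exact key x hx (h.symm _ _ hc)
        · exact hA'ind x hx y hy hxy
    · rw [card_insert_of_notMem hvA']
      have h1 : A.card = A₁.card + (A.filter (fun w => touch v w)).card := by
        rw [hA₁, add_comm]
        exact (card_filter_add_card_filter_not _).symm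
      have h2 : (A.filter (fun w => touch v w)).card ≤ t := by
        apply hB v hv _ (filter_subset _ _)
        intro w hw
        rw [mem_filter] at hw
        exact h.later v w hw.2 (hmin w hw.1)
      rw [h1]
      calc A₁.card + (A.filter (fun w => touch v w)).card ≤ t * A'.card + t := by omega
        _ = t * (A'.card + 1) := by ring

/-- The counting lemma. -/
theorem Elim.count (h : Elim touch ρ B) [DecidableEq V] (S : Finset V) (J : V → Finset V)
    (hS : ∀ v ∈ S, ∀ w ∈ S, v ≠ w → ¬ touch v w)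
    (hJ1 : ∀ v ∈ S, ∀ u ∈ J v, touch v u ∧ u ≠ v)
    (hJ2 : ∀ v ∈ S, ∀ u ∈ J v, ∀ w ∈ J v, u ≠ w → ¬ touch u w) :
    ∃ X : Finset V, X ⊆ S.biUnion J ∧ (∀ u ∈ X, ∀ w ∈ X, u ≠ w → ¬ touch u w) ∧
      ∑ v ∈ S, (J v).card ≤ X.card + 2 * S.card := by
  classical
  set W : V → Finset V := fun v => (J v).filter (fun u => ρ u < ρ v) with hW
  have hWJ : ∀ v u, u ∈ W v → u ∈ J v := fun v u hu => (mem_filter.1 hu).1
  have hWlt : ∀ v u, u ∈ W v → ρ u < ρ v := fun v u hu => (mem_filter.1 hu).2
  -- dropping later neighbours costs at most one element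
  have hdrop : ∀ v ∈ S, (J v).card ≤ (W v).card + 1 := by
    intro v hv
    have h1 : (J v).card = (W v).card + ((J v).filter (fun u => ¬ ρ u < ρ v)).card :=
      (card_filter_add_card_filter_not _).symm
    have h2 : ((J v).filter (fun u => ¬ ρ u < ρ v)).card ≤ 1 := by
      rw [card_le_one]
      intro a ha b hb
      rw [mem_filter] at ha hb
      by_contra hab
      have ha' := h.later v a (hJ1 v hv a ha.1).1 (not_lt.1 ha.2)
      have hb' := h.later v b (hJ1 v hv b hb.1).1 (not_lt.1 hb.2)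
      exact hJ2 v hv a ha.1 b hb.1 hab (h.clique v a b ha' hb')
    omega
  -- owners are unique
  have hown : ∀ v ∈ S, ∀ w ∈ S, ∀ u, u ∈ W v → u ∈ W w → v = w := by
    intro v hv w hw u huv huw
    by_contra hvw
    have h1 := h.later u v (h.symm _ _ (hJ1 v hv u (hWJ v u huv)).1) (hWlt v u huv).le
    have h2 := h.later u w (h.symm _ _ (hJ1 w hw u (hWJ w u huw)).1) (hWlt w u huw).le
    exact hS v hv w hw hvw (h.clique u v w h1 h2)
  -- conflicts
  have hconf : ∀ v ∈ S, ∀ w ∈ S, ∀ u u', u ∈ W v → u' ∈ W w → ρ u < ρ u' → touch u u' →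
      ρ v < ρ u' ∧ touch v u' := by
    intro v hv w hw u u' hu hu' hlt htouch
    have hne : u ≠ u' := fun hc => by rw [hc] at hlt; exact lt_irrefl _ hlt
    have hvw : v ≠ w := by
      rintro rfl
      exact hJ2 v hv u (hWJ _ _ hu) u' (hWJ _ _ hu') hne htouch
    have h1 : u' ∈ B u := h.later u u' htouch hlt.le
    have h2 : v ∈ B u := h.later u v (h.symm _ _ (hJ1 v hv u (hWJ _ _ hu)).1) (hWlt _ _ hu).le
    have h3 : touch v u' := h.clique u v u' h2 h1
    refine ⟨?_, h3⟩
    rcases lt_trichotomy (ρ v) (ρ u') with hc | hc | hc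
    · exact hc
    · exfalso
      have : v = u' := h.inj hc
      subst this
      exact hS w hw v hv hvw.symm (hJ1 w hw v (hWJ _ _ hu')).1
    · exfalso
      have h4 : v ∈ B u' := h.later u' v (h.symm _ _ h3) hc.le
      have h5 : w ∈ B u' := h.later u' w (h.symm _ _ (hJ1 w hw u' (hWJ _ _ hu')).1)
        (hWlt _ _ hu').le
      exact hS v hv w hw hvw (h.clique u' v w h4 h5)
  set Wt := S.biUnion W with hWt
  set Bad := Wt.filter (fun u' => ∃ v ∈ S, ρ v < ρ u' ∧ touch v u') with hBad
  have hWtcard : Wt.card = ∑ v ∈ S, (W v).card := by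
    rw [hWt, card_biUnion]
    intro v hv w hw hvw
    change Disjoint (W v) (W w)
    rw [disjoint_left]
    intro u hu hu'
    exact hvw (hown v hv w hw u hu hu')
  -- the bad elements
  have hBadcard : Bad.card ≤ S.card := by
    have hex : ∀ u' ∈ Bad, ∃ v ∈ S, (ρ v < ρ u' ∧ touch v u') ∧
        ∀ v' ∈ S, ρ v' < ρ u' ∧ touch v' u' → ρ v' ≤ ρ v := by
      intro u' hu'
      rw [hBad, mem_filter] at hu'
      obtain ⟨-, v0, hv0, hv0'⟩ := hu'
      obtain ⟨v, hv, hmax⟩ := (S.filter (fun v => ρ v < ρ u' ∧ touch v u')).exists_max_image ρ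
        ⟨v0, by rw [mem_filter]; exact ⟨hv0, hv0'⟩⟩
      rw [mem_filter] at hv
      exact ⟨v, hv.1, hv.2, fun v' hv' hc => hmax v' (by rw [mem_filter]; exact ⟨hv', hc⟩)⟩
    choose! φ hφ1 hφ2 hφ3 using hex
    have aux : ∀ u' ∈ Bad, ∀ u'' ∈ Bad, φ u' = φ u'' → ¬ ρ u' < ρ u'' := by
      intro u' hu' u'' hu'' heq hlt
      have h1 := h.later (φ u') u' (hφ2 u' hu').2 (hφ2 u' hu').1.le
      have h2 : u'' ∈ B (φ u') := by
        rw [heq]
        exact h.later (φ u'') u'' (hφ2 u'' hu'').2 (hφ2 u'' hu'').1.le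
      have h3 : touch u' u'' := h.clique _ _ _ h1 h2
      have hm' : u' ∈ Wt := (mem_filter.1 hu').1
      have hm'' : u'' ∈ Wt := (mem_filter.1 hu'').1
      rw [hWt, mem_biUnion] at hm' hm''
      obtain ⟨v1, hv1, hu1⟩ := hm'
      obtain ⟨v2, hv2, hu2⟩ := hm''
      have h4 := hconf v1 hv1 v2 hv2 u' u'' hu1 hu2 hlt h3
      have h5 := hφ3 u'' hu'' v1 hv1 h4
      have h6 := hWlt _ _ hu1
      have h7 := (hφ2 u' hu').1
      rw [heq] at h7
      omega
    refine card_le_card_of_injOn φ (fun u' hu' => hφ1 u' hu') ?_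
    intro u' hu' u'' hu'' heq
    by_contra hne
    rcases lt_trichotomy (ρ u') (ρ u'') with hc | hc | hc
    · exact aux u' hu' u'' hu'' heq hc
    · exact hne (h.inj hc)
    · exact aux u'' hu'' u' hu' heq.symm hc
  refine ⟨Wt \ Bad, ?_, ?_, ?_⟩
  · intro u hu
    rw [mem_sdiff, hWt, mem_biUnion] at hu
    obtain ⟨⟨v, hv, huv⟩, -⟩ := hu
    rw [mem_biUnion]
    exact ⟨v, hv, hWJ _ _ huv⟩
  · have aux : ∀ u ∈ Wt \ Bad, ∀ w ∈ Wt \ Bad, ρ u < ρ w → ¬ touch u w := by
      intro u hu w hw hlt htouch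
      rw [mem_sdiff] at hu hw
      have hu1 := hu.1
      have hw1 := hw.1
      rw [hWt, mem_biUnion] at hu1 hw1
      obtain ⟨v1, hv1, hu1⟩ := hu1
      obtain ⟨v2, hv2, hw1⟩ := hw1
      have h4 := hconf v1 hv1 v2 hv2 u w hu1 hw1 hlt htouch
      apply hw.2
      rw [hBad, mem_filter]
      exact ⟨hw.1, v1, hv1, h4⟩
    intro u hu w hw huw
    rcases lt_trichotomy (ρ u) (ρ w) with hc | hc | hc
    · exact aux u hu w hw hc
    · exact absurd (h.inj hc) huw
    · intro ht
      exact aux w hw u hu hc (h.symm _ _ ht)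
  · have h1 : (Wt \ Bad).card = Wt.card - Bad.card := card_sdiff_of_subset (filter_subset _ _)
    have h2 : ∑ v ∈ S, (J v).card ≤ Wt.card + S.card := by
      rw [hWtcard]
      calc ∑ v ∈ S, (J v).card ≤ ∑ v ∈ S, ((W v).card + 1) := sum_le_sum fun v hv => hdrop v hv
        _ = ∑ v ∈ S, (W v).card + S.card := by rw [sum_add_distrib]; simp
    omega

end Pool.Agent.TreeAlpha
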