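import Mathlib

/-!
Subtrees of a tree and their nodes closest to a root.
-/

set_option autoImplicit false

namespace Pool.Agent.TreeAlpha

open SimpleGraph

variable {ι : Type*} {T : SimpleGraph ι}

theorem path_in (N : Set ι) (hN : (T.induce N).Preconnected) (y a : ι) (hy : y ∈ N) (ha : a ∈ N) :
    ∃ p : T.Walk y a, p.IsPath ∧ ∀ z ∈ p.support, z ∈ N := by
  classical
  obtain ⟨p⟩ := hN ⟨y, hy⟩ ⟨a, ha⟩
  obtain ⟨q, hq⟩ : ∃ q : T.Walk y a, ∀ z ∈ q.support, z ∈ N := by
    have key : ∀ (u w : N) (p : (T.induce N).Walk u w),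
        ∃ q : T.Walk u.1 w.1, ∀ z ∈ q.support, z ∈ N := by
      intro u w p
      induction p with
      | nil => exact ⟨Walk.nil, fun z hz => by
          rw [Walk.support_nil, List.mem_singleton] at hz
          rw [hz]; exact Subtype.property _⟩
      | @cons u v w h p ih =>
        obtain ⟨q, hq⟩ := ih
        have h' : T.Adj u.1 v.1 := h
        refine ⟨Walk.cons h' q, fun z hz => ?_⟩
        rw [Walk.support_cons, List.mem_cons] at hz
        rcases hz with rfl | hz
        · exact u.2
        · exact hq z hz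
    exact key _ _ p
  exact ⟨q.bypass, q.bypass_isPath, fun z hz => hq z (q.support_bypass_subset_support hz)⟩

theorem shortest (hT : T.Connected) (a r : ι) :
    ∃ q : T.Walk a r, q.IsPath ∧ ∀ z ∈ q.support, z ≠ a → T.dist z r < T.dist a r := by
  classical
  obtain ⟨q, hq⟩ := hT.exists_walk_length_eq_dist a r
  refine ⟨q, q.isPath_of_length_eq_dist hq, fun z hz hza => ?_⟩
  have h1 : (q.takeUntil z hz).length + (q.dropUntil z hz).length = q.length := by
    rw [← Walk.length_append, Walk.take_spec]
  have h2 : T.dist z r ≤ (q.dropUntil z hz).length := dist_le _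
  have h3 : 0 < (q.takeUntil z hz).length := by
    rw [Nat.pos_iff_ne_zero]
    intro h0
    exact hza (Walk.eq_of_length_eq_zero h0).symm
  omega

theorem append_path (hT : T.Connected) (r : ι) (N : Set ι) (hN : (T.induce N).Preconnected)
    (y a : ι) (hy : y ∈ N) (ha : a ∈ N) (hmin : ∀ z ∈ N, T.dist a r ≤ T.dist z r) :
    ∃ (p : T.Walk y a) (q : T.Walk a r), (p.append q).IsPath ∧ (∀ z ∈ p.support, z ∈ N) ∧
      ∀ z ∈ q.support, z ≠ a → T.dist z r < T.dist a r := by
  obtain ⟨p, hp, hpN⟩ := path_in N hN y a hy ha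
  obtain ⟨q, hq, hqd⟩ := shortest hT a r
  refine ⟨p, q, ?_, hpN, hqd⟩
  rw [Walk.isPath_def, Walk.support_append]
  apply List.Nodup.append hp.support_nodup
  · exact hq.support_nodup.tail
  · intro z hz hz'
    have h1 : z ≠ a := by
      rintro rfl
      have h2 := hq.support_nodup
      rw [← Walk.cons_tail_support, List.nodup_cons] at h2
      exact h2.1 hz'
    have h3 := hqd z (List.mem_of_mem_tail hz') h1
    have h4 := hmin z (hpN z hz)
    omega

/-- The key property of subtrees: the node of `N` closest to the root lies in `M` if `N` and `M`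
meet and `M` reaches at least as close to the root. -/
theorem top_mem (hT : T.IsTree) (r : ι) (N M : Set ι) (hN : (T.induce N).Preconnected)
    (hM : (T.induce M).Preconnected) (y : ι) (hyN : y ∈ N) (hyM : y ∈ M) (a b : ι) (ha : a ∈ N)
    (hb : b ∈ M) (hamin : ∀ z ∈ N, T.dist a r ≤ T.dist z r)
    (hbmin : ∀ z ∈ M, T.dist b r ≤ T.dist z r) (hab : T.dist b r ≤ T.dist a r) : a ∈ M := by
  obtain ⟨p, q, hpq, hp, hq⟩ := append_path hT.1 r N hN y a hyN ha hamin
  obtain ⟨p', q', hpq', hp', hq'⟩ := append_path hT.1 r M hM y b hyM hb hbmin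
  have huniq := (hT.existsUnique_path y r).unique hpq hpq'
  have hmem : a ∈ (p'.append q').support := by
    rw [← huniq, Walk.mem_support_append_iff]
    exact Or.inl p.end_mem_support
  rw [Walk.mem_support_append_iff] at hmem
  rcases hmem with h | h
  · exact hp' a h
  · by_cases hab' : a = b
    · rw [hab']; exact hb
    · have := hq' a h hab'
      omega

end Pool.Agent.TreeAlpha
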